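import Mathlib
import Pool.Agent.J4.H58.TP.Mul
import Pool.Agent.J4.H58.EX.Main2

/-!
# Beilinson's conjecture for the triple products of weights `(k, 1, 1)`: exact reduction to `f` and
its nontrivial linear twists of arbitrarily large rank

The other definitions are in `Pool.Agent.J4.H58.TP.Defs` and `Pool.Agent.K4H74.SC.Core`.
-/

set_option autoImplicit false

namespace Pool.Agent.Results.MP_60ff09_nt.LargeRankTwists

open NumberField Pool.Agent.K4H74 Pool.Agent.K4H74.SK Pool.Agent.K4H77 Pool.Agent.K4H34.AL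
  Pool.Agent.J4.H58.TP Pool.Agent.J4.H58.DEL Pool.Agent.K4H74.ST

/-- The number of the infinite places `v` of `K` such that the linear character `ψ` is trivial on
the decomposition groups of the places of `L` above `v`. -/
noncomputable def rank {E : Ext} (ψ : G E →* ℂˣ) : ℕ :=
  Nat.card {v : InfinitePlace E.K // ∀ w : InfinitePlace E.L,
    w.comap (algebraMap E.K E.L) = v → ∀ g : G E, w.comap (emb g) = w → ψ g = 1}

/-- The basic characters for `R`: the nontrivial faithful linear characters `ψ` of the (cyclic)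
extensions `L / K` of number fields whose rank is at least `R`. -/
inductive Basic (R : ℕ) : Pair → Prop
  | linear (E : Ext) (ψ : G E →* ℂˣ) : Function.Injective ψ → (∃ g, ψ g ≠ 1) → R ≤ rank ψ →
      Basic R ⟨E, lin ψ⟩

/-- The trivial character of `ℚ`: the twist is `f` itself. -/
def triv : Pair := ⟨⟨ℚ, ℚ⟩, fun _ => 1⟩

/-- `m` is the multiplicity of the trivial character in `χ`. -/
def IsTrivMult {E : Ext} (χ : G E → ℂ) (m : ℤ) : Prop :=
  (m : ℂ) = (Nat.card (G E) : ℂ)⁻¹ * ∑ᶠ g : G E, χ g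

/-- The character of `V_gh = V_g ⊗ V_h`, for two 2-dimensional representations `ρ_g`, `ρ_h` of the
Galois group of `L / ℚ`. -/
def tensorChar {L : Type} [Field L] [NumberField L] [IsGalois ℚ L]
    (ρg ρh : G ⟨ℚ, L⟩ →* Matrix (Fin 2) (Fin 2) ℂ) (x : G ⟨ℚ, L⟩) : ℂ :=
  (ρg x).trace * (ρh x).trace

lemma Basic.isChr {R : ℕ} {x : Pair} (h : Basic R x) : IsChr x.2 := by
  cases h with
  | linear E ψ _ _ _ => exact isChr_lin ψ

lemma triv_isChr : IsChr triv.2 := by
  have h1 := isChr_lin (E := ⟨ℚ, ℚ⟩) 1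
  have h2 : lin (1 : G ⟨ℚ, ℚ⟩ →* ℂˣ) = fun _ => 1 := by
    funext g
    simp [lin]
  rwa [h2] at h1

/-- the trivial character and the basic ones as one family -/
theorem cons_form {M : Type} [CommGroup M] {A : ArtinInvariant M} {y : Pair} {m : ℤ} {r : ℕ}
    {x : Fin r → Pair} {k : Fin r → ℤ}
    (h : pval A y = pval A triv ^ m * ∏ i, pval A (x i) ^ k i) :
    pval A y ^ 1 = ∏ i : Fin (r + 1), pval A (Fin.cons (α := fun _ => Pair) triv x i) ^
      (Fin.cons (α := fun _ => ℤ) m k i : ℤ) := by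
  rw [pow_one, Fin.prod_univ_succ]
  simp only [Fin.cons_zero, Fin.cons_succ]
  exact h

/-- Let `f` be a normalised cuspidal eigenform of weight `k ≥ 2`, let `V` be a functor with Galois
descent from the number fields to the finite-dimensional complex vector spaces (in the conjecture:
`V(L) = CH^{k/2}(W_{k-2} / L)_0^{[f]} ⊗ ℂ`), and let `R` be any natural number. For a character `χ`
of the Galois group of an extension `L / K` of number fields the series for `log L(f ⊗ χ, s)`
converges for `Re s > k / 2 + 1`, and there is exactly one multiplicity of `χ` in `V(L)`. An example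
of a functor `V` is `L ↦ ℂ ⊗ E(L)`, for an elliptic curve `E` over `ℚ` (the case of the weight `2`
and rational coefficients).

(1) Let `m` be the multiplicity of the trivial character in `χ`. For every family of functors `V_j`
there are basic characters `ψ_i` for `R` and integers `k_i`, the same ones for all `f` and `j`, such
that `L(f ⊗ χ, s) = L(f, s)^m ∏ L(f ⊗ ψ_i, s)^(k_i)` (for the logarithms), the orders at `s = k / 2`
of meromorphic continuations satisfy `a = m a₀ + ∑ k_i a_i`, and so do the multiplicities in `V_j`.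

(2) If Beilinson's formula (the order of `L(f ⊗ ψ, s)` at `s = k / 2` is the multiplicity of `ψ` in
`V(L)`) is true for the basic characters for `R`, then it is true for `χ`, if `m = 0`, or if it is
true for `f` itself (the trivial character of `ℚ`).

(3) In particular, under this hypothesis Beilinson's formula is true for all triple products
`f ⊗ g ⊗ h` with 2-dimensional Artin representations `ρ_g`, `ρ_h` of `Gal(L / ℚ)` such that `V_gh`
does not contain the trivial representation, and if it is also true for `f`, for all `ρ_g`, `ρ_h`. -/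
theorem result :
    -- the series and the multiplicities
    (∀ (f : Eigenform) (E : Ext) (χ : G E → ℂ) (s : ℂ), (f.k : ℝ) / 2 + 1 < s.re →
      ∃ l : ℂ, HasSum (fTerm f s χ) l) ∧
    (∀ (V : GalFun) (E : Ext) (χ : G E → ℂ), IsChr χ → ∃! m : ℕ, IsMult V χ m) ∧
    (∀ (L : Type) [Field L] [NumberField L] [IsGalois ℚ L]
      (ρg ρh : G ⟨ℚ, L⟩ →* Matrix (Fin 2) (Fin 2) ℂ), IsChr (tensorChar ρg ρh)) ∧
    (∀ (W : WeierstrassCurve ℤ) (hΔ : W.Δ ≠ 0) (E : Ext) (χ : G E → ℂ) (m : ℕ),
      IsMult (curveFun W hΔ) χ m ↔ Pool.Agent.J4.H58.BSD.IsMult W χ m) ∧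
    ∀ R : ℕ,
      -- (1)
      (∀ (ι : Type) (V : ι → GalFun) (E : Ext) (χ : G E → ℂ), IsChr χ →
        ∃ (m : ℤ) (r : ℕ) (x : Fin r → Pair) (k : Fin r → ℤ), (∀ i, Basic R (x i)) ∧
          IsTrivMult χ m ∧
          (∀ (f : Eigenform) (s : ℂ), (f.k : ℝ) / 2 + 1 < s.re → ∀ (l l₀ : ℂ) (l' : Fin r → ℂ),
            HasSum (fTerm f s χ) l → HasSum (fTerm f s triv.2) l₀ →
              (∀ i, HasSum (fTerm f s (x i).2) (l' i)) → l = m * l₀ + ∑ i, k i * l' i) ∧
          (∀ (f : Eigenform) (F F₀ : ℂ → ℂ) (F' : Fin r → ℂ → ℂ), IsL f χ F → IsL f triv.2 F₀ →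
            (∀ i, IsL f (x i).2 (F' i)) → ∃ (a a₀ : ℤ) (a' : Fin r → ℤ),
              meromorphicOrderAt F ((f.k : ℂ) / 2) = a ∧
              meromorphicOrderAt F₀ ((f.k : ℂ) / 2) = a₀ ∧
              (∀ i, meromorphicOrderAt (F' i) ((f.k : ℂ) / 2) = a' i) ∧
                a = m * a₀ + ∑ i, k i * a' i) ∧
          ∀ (j : ι) (n n₀ : ℕ) (n' : Fin r → ℕ), IsMult (V j) χ n → IsMult (V j) triv.2 n₀ →
            (∀ i, IsMult (V j) (x i).2 (n' i)) → (n : ℤ) = m * n₀ + ∑ i, k i * n' i) ∧
      ∀ (f : Eigenform) (V : GalFun), (∀ x : Pair, Basic R x → Beilinson f V x.2) →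
        -- (2)
        (∀ (E : Ext) (χ : G E → ℂ), IsChr χ →
          (IsTrivMult χ 0 ∨ Beilinson f V triv.2) → Beilinson f V χ) ∧
        -- (3)
        ∀ (L : Type) [Field L] [NumberField L] [IsGalois ℚ L]
          (ρg ρh : G ⟨ℚ, L⟩ →* Matrix (Fin 2) (Fin 2) ℂ),
          (IsTrivMult (tensorChar ρg ρh) 0 ∨ Beilinson f V triv.2) →
            Beilinson f V (tensorChar ρg ρh) := by
  have hten : ∀ (L : Type) [Field L] [NumberField L] [IsGalois ℚ L]
      (ρg ρh : G ⟨ℚ, L⟩ →* Matrix (Fin 2) (Fin 2) ℂ), IsChr (tensorChar ρg ρh) :=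
    fun L _ _ _ ρg ρh => isChr_mul ⟨2, ρg, fun _ => rfl⟩ ⟨2, ρh, fun _ => rfl⟩
  refine ⟨fun f E χ s hs => fTerm_summable f hs χ, fun V E χ hχ => ?_, hten,
    fun W hΔ E χ m => isMult_curve hΔ, fun R => ?_⟩
  · obtain ⟨m, hm⟩ := isMult_exists V hχ
    exact ⟨m, hm, fun m' hm' => isMult_unique hm' hm⟩
  have hform : ∀ (ι : Type) (V : ι → GalFun) (E : Ext) (χ : G E → ℂ), IsChr χ →
      ∃ (m : ℤ) (r : ℕ) (x : Fin r → Pair) (k : Fin r → ℤ), (∀ i, Basic R (x i)) ∧
        IsTrivMult χ m ∧ pval (tInv V) ⟨E, χ⟩ ^ 1 = ∏ i : Fin (r + 1),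
          pval (tInv V) (Fin.cons (α := fun _ => Pair) triv x i) ^
            (Fin.cons (α := fun _ => ℤ) m k i : ℤ) := by
    intro ι V E χ hχ
    obtain ⟨m, r, x, k, hx, hm, h0⟩ := Pool.Agent.J4.H58.EX.form' (tInv V) R (Basic R)
      (fun E ψ h1 h2 h3 => Basic.linear E ψ h1 h2 h3) hχ
    exact ⟨m, r, x, k, hx, hm, cons_form h0⟩
  have hlog : ∀ (ι : Type) (V : ι → GalFun) (E : Ext) (χ : G E → ℂ) (m : ℤ) (r : ℕ)
      (x : Fin r → Pair) (k : Fin r → ℤ),
      pval (tInv V) ⟨E, χ⟩ ^ 1 = ∏ i : Fin (r + 1),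
          pval (tInv V) (Fin.cons (α := fun _ => Pair) triv x i) ^
            (Fin.cons (α := fun _ => ℤ) m k i : ℤ) →
      ∀ (f : Eigenform) (s : ℂ), (f.k : ℝ) / 2 + 1 < s.re → ∀ (l : ℂ)
        (l' : Fin (r + 1) → ℂ), HasSum (fTerm f s χ) l →
          (∀ i, HasSum (fTerm f s (Fin.cons (α := fun _ => Pair) triv x i).2) (l' i)) →
            l = ∑ i : Fin (r + 1), (Fin.cons (α := fun _ => ℤ) m k i : ℤ) * l' i := by
    intro ι V E χ m r x k h f s hs l l' hl hl'
    have h1 := rel_log (y := ⟨E, χ⟩) h f hs hl hl'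
    rwa [Nat.cast_one, one_mul] at h1
  have hmain : ∀ (f : Eigenform) (V : GalFun), (∀ x : Pair, Basic R x → Beilinson f V x.2) →
      ∀ (E : Ext) (χ : G E → ℂ), IsChr χ → (IsTrivMult χ 0 ∨ Beilinson f V triv.2) →
        Beilinson f V χ := by
    intro f V hb E χ hχ hor
    obtain ⟨m, r, x, k, hx, hm, h⟩ := hform Unit (fun _ => V) E χ hχ
    obtain ⟨n, hn⟩ := isMult_exists V hχ
    rcases hor with h0 | h0
    · -- the multiplicity of the trivial character is zero
      have hm0 : m = 0 := by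
        have h3 : (m : ℂ) = ((0 : ℤ) : ℂ) := hm.trans h0.symm
        exact Int.cast_inj.mp h3
      subst hm0
      choose F' n' hF' hn' ho using fun i => hb (x i) (hx i)
      obtain ⟨n₀, hn₀⟩ := isMult_exists V triv_isChr
      have hlog' : ∀ s : ℂ, (f.k : ℝ) / 2 + 1 < s.re → ∀ (l : ℂ) (l' : Fin r → ℂ),
          HasSum (fTerm f s χ) l → (∀ i, HasSum (fTerm f s (x i).2) (l' i)) →
            l = ∑ i, k i * l' i := by
        intro s hs l l' hl hl'
        obtain ⟨l₀, hl₀⟩ := fTerm_summable f hs triv.2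
        have h1 := hlog Unit (fun _ => V) E χ 0 r x k h f s hs l
          (Fin.cons (α := fun _ => ℂ) l₀ l') hl (by
            intro i
            refine Fin.cases ?_ (fun i => ?_) i
            · exact hl₀
            · exact hl' i)
        rw [Fin.sum_univ_succ] at h1
        simpa only [Fin.cons_zero, Fin.cons_succ, Int.cast_zero, zero_mul, zero_add] using h1
      obtain ⟨F, hF, hFo⟩ := order_rel (m' := fun i => (n' i : ℤ)) hlog' hF' ho
      refine ⟨F, n, hF, hn, ?_⟩
      have h1 := rel_mult (V := fun _ : Unit => V) (y := ⟨E, χ⟩) h () hn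
        (m' := Fin.cons (α := fun _ => ℕ) n₀ n') (by
          intro i
          refine Fin.cases ?_ (fun i => ?_) i
          · exact hn₀
          · exact hn' i)
      rw [Fin.sum_univ_succ] at h1
      simp only [Fin.cons_zero, Fin.cons_succ, Nat.cast_one, one_mul, zero_mul, zero_add] at h1
      rw [hFo, ← h1]
      rfl
    · obtain ⟨F₀, n₀, hF₀, hn₀, ho₀⟩ := h0
      choose F' n' hF' hn' ho using fun i => hb (x i) (hx i)
      obtain ⟨F, hF, hFo⟩ := order_rel (f := f) (x := Fin.cons (α := fun _ => Pair) triv x)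
        (k := Fin.cons (α := fun _ => ℤ) m k) (m' := Fin.cons (α := fun _ => ℤ) n₀ fun i => n' i)
        (F' := Fin.cons (α := fun _ => ℂ → ℂ) F₀ F')
        (z := (f.k : ℂ) / 2) (hlog Unit (fun _ => V) E χ m r x k h f)
        (by
          intro i
          refine Fin.cases ?_ (fun i => ?_) i
          · exact hF₀
          · exact hF' i)
        (by
          intro i
          refine Fin.cases ?_ (fun i => ?_) i
          · exact ho₀
          · exact ho i)
      refine ⟨F, n, hF, hn, ?_⟩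
      have h1 := rel_mult (V := fun _ : Unit => V) (y := ⟨E, χ⟩) h () hn
        (m' := Fin.cons (α := fun _ => ℕ) n₀ n') (by
          intro i
          refine Fin.cases ?_ (fun i => ?_) i
          · exact hn₀
          · exact hn' i)
      rw [Fin.sum_univ_succ] at h1
      simp only [Fin.cons_zero, Fin.cons_succ, Nat.cast_one, one_mul] at h1
      rw [hFo, Fin.sum_univ_succ]
      simp only [Fin.cons_zero, Fin.cons_succ]
      rw [← h1]
      rfl
  refine ⟨?_, fun f V hb => ⟨hmain f V hb, fun L _ _ _ ρg ρh hor =>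
    hmain f V hb ⟨ℚ, L⟩ _ (hten L ρg ρh) hor⟩⟩
  intro ι V E χ hχ
  obtain ⟨m, r, x, k, hx, hm, h⟩ := hform ι V E χ hχ
  refine ⟨m, r, x, k, hx, hm, ?_, ?_, ?_⟩
  · intro f s hs l l₀ l' hl hl₀ hl'
    have h1 := hlog ι V E χ m r x k h f s hs l (Fin.cons (α := fun _ => ℂ) l₀ l') hl (by
      intro i
      refine Fin.cases ?_ (fun i => ?_) i
      · exact hl₀
      · exact hl' i)
    rw [Fin.sum_univ_succ] at h1
    simpa only [Fin.cons_zero, Fin.cons_succ] using h1
  · intro f F F₀ F' hF hF₀ hF'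
    obtain ⟨a, ha⟩ := order_finite hF ((f.k : ℂ) / 2)
    obtain ⟨a₀, ha₀⟩ := order_finite hF₀ ((f.k : ℂ) / 2)
    choose a' ha' using fun i => order_finite (hF' i) ((f.k : ℂ) / 2)
    refine ⟨a, a₀, a', ha, ha₀, ha', ?_⟩
    obtain ⟨F₁, hF₁, hFo⟩ := order_rel (f := f) (x := Fin.cons (α := fun _ => Pair) triv x)
        (k := Fin.cons (α := fun _ => ℤ) m k) (m' := Fin.cons (α := fun _ => ℤ) a₀ a')
        (F' := Fin.cons (α := fun _ => ℂ → ℂ) F₀ F')
        (z := (f.k : ℂ) / 2) (hlog ι V E χ m r x k h f)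
        (by
          intro i
          refine Fin.cases ?_ (fun i => ?_) i
          · exact hF₀
          · exact hF' i)
        (by
          intro i
          refine Fin.cases ?_ (fun i => ?_) i
          · exact ha₀
          · exact ha' i)
    rw [isL_order hF₁ hF, ha, Fin.sum_univ_succ] at hFo
    simp only [Fin.cons_zero, Fin.cons_succ] at hFo
    exact_mod_cast hFo
  · intro j n n₀ n' hn hn₀ hn'
    have h1 := rel_mult (y := ⟨E, χ⟩) h j hn (m' := Fin.cons (α := fun _ => ℕ) n₀ n') (by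
      intro i
      refine Fin.cases ?_ (fun i => ?_) i
      · exact hn₀
      · exact hn' i)
    rw [Fin.sum_univ_succ] at h1
    simpa only [Fin.cons_zero, Fin.cons_succ, Nat.cast_one, one_mul] using h1

end Pool.Agent.Results.MP_60ff09_nt.LargeRankTwists
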