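import Pool.Agent.J4.H24.BT.Fin

/-!
# Beilinson's conjecture for the form of level 27 and all pairs of weight one forms of a tower of fields

`E` is the curve `y² + y = x³` over `ℚ`, of conductor `27`, and `f` its newform, so that the part of
`CH¹(X_1(27)/H)_0 ⊗ ℂ` attached to `f` is `E(H) ⊗ ℂ`.  `F` is the field of third roots of unity, and `K` is a Galois
extension of `ℚ` which contains `F`, of degree `2 ^ n` over `F`, with an Artin map of modulus `m` over `F`, where `2` is
not a cube modulo any prime number that divides `m`.  By class field theory these are all the fields `K` of 2-power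
degree which are Galois over `ℚ`, abelian over `F` and unramified over `F` outside of the primes `l = 1` modulo `3` for
which `2` is not a cube modulo `l`.  The compositum of two such fields is again such a field, and the exponent and the
degree of `Gal(K/F)` are not bounded.  The Galois group of `K / ℚ` is not abelian in general.

Theorem, with no hypothesis: for ALL pairs `(g, h)` of weight one forms, cusp forms or Eisenstein series, whose Artin
representations are trivial on the Galois group of `K`, Beilinson's equality holds, with both sides zero, for the triple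
product of `f`, `g`, `h`:

`ord_{s = 1} L(f ⊗ g ⊗ h, s) = dim Hom(V_gh, E(K) ⊗ ℂ) = 0`.

(The homomorphisms are those of representations of `Gal(K/ℚ)`; they are the same for `K` and for the field `H` of
`ρ_g ⊗ ρ_h`.)  The cusp forms `g` are here the theta series of the characters `χ` of `F` of 2-power order and of conductor
dividing such a number `m` which are different from their conjugates `χ'`; the level of `g` is `3 N(cond χ)`, and if
`χ/χ'` has the order `2 ^ k` then the projective image of `ρ_g` is the dihedral group of order `2 ^ (k + 1)`.  Moreover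
`L(f ⊗ g ⊗ h, 1) / (Ω⁺ |Ω⁻|)²` is a unit at every valuation of the field of complex numbers above `2`, where
`Ω⁺ |Ω⁻| = 2 ∫_{E(ℂ)} |ω ∧ ω̄|` is the product of the real and the imaginary period of `E`.

The starting result `DihedralTwoPower` of this problem treats elliptic curves without condition on the endomorphisms, but
under the hypothesis that a central value is odd (which is known numerically in examples), for fields `F` over imaginary
quadratic fields in which the bad primes are unramified and have completely split extensions in `F`, and if `g` or `h` is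
a cusp form.  Here the bad prime `3` of `E` is ramified in `ℚ(√-3)` and nothing is assumed on the primes above `2` and `3`.

The proof.  `V_f` is induced from the Hecke character `ψ` of `F`; so `L(V_f ⊗ V, s)` is, for every complex representation
`V` of `Gal(K/ℚ)`, the product of the Hecke `L`-functions `L(ψ χ, s)` for the characters `χ` of `Gal(K/F)` which occur
in `V`, and of factors at the primes which divide `m`.  The functions `L(ψ χ, s)` are entire and `L(ψ χ, 1)` is a
2-adic unit times a period of `E` (starting files `Pool/Agent/Y696`, also the finiteness of `E(K)`).  The comparison of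
the Euler factors follows the starting files `Pool/Agent/R431/B` for integral representations; the files
`Pool/Agent/J4/H24/BT` treat arbitrary complex representations.
-/

set_option autoImplicit false

namespace Pool.Agent.Results.MP_60ff09_nt.NonabelianTwoPowerLevel27

open NumberField IsDedekindDomain WeierstrassCurve MeasureTheory

open scoped TensorProduct Kronecker

/-- The curve `E : y² + y = x³`. -/
def curve : WeierstrassCurve ℤ := ⟨0, 0, 1, 0, 0⟩

/-- The curve given by the equation of `W` over the ring `R`. -/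
abbrev base (W : WeierstrassCurve ℤ) (R : Type) [CommRing R] : WeierstrassCurve R :=
  W.map (Int.castRingHom R)

/-- The number of the affine points `(x, y)` over the ring `R`. -/
noncomputable def pts (W : WeierstrassCurve ℤ) (R : Type) [CommRing R] : ℕ :=
  Nat.card {P : R × R // (base W R).toAffine.Equation P.1 P.2}

/-- `4 x³ + b₂ x² + 2 b₄ x + b₆ = (2 y + a₁ x + a₃)²`, where `b₂ = a₁² + 4 a₂`,
`b₄ = 2 a₄ + a₁ a₃`, `b₆ = a₃² + 4 a₆`. -/
def cubic (W : WeierstrassCurve ℤ) {R : Type} [CommRing R] (x : R) : R :=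
  4 * x ^ 3 + W.b₂ * x ^ 2 + 2 * W.b₄ * x + W.b₆

/-- `2 ∫_{W(ℂ)} |ω ∧ ω̄|` with `ω = dx / (2 y + a₁ x + a₃)`, where `|ω ∧ ω̄| = du dv` in a local parameter
`z = u + i v` with `dz = ω`, as an integral over `x`: two points lie over a general `x`, and `|ω ∧ ω̄|` is the
area element of the plane of `x` divided by `|cubic x|`. -/
noncomputable def complexPeriod (W : WeierstrassCurve ℤ) : ℝ := 2 * (2 * ∫ x : ℂ, 1 / ‖cubic W x‖)

/-- `art` is an Artin map of modulus `c` for the extension `K/F` (the ring of integers of `F` is a principal ideal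
ring): a surjective homomorphism from the group of the units modulo `c` to the Galois group, such that `K/F` is
unramified at the places which do not divide `c` and `art(π)` is the Frobenius automorphism of the prime `π`, for
all prime elements `π` which do not divide `c`. -/
structure IsArtin {F K : Type} [Field F] [NumberField F] [Field K] [NumberField K] [Algebra F K]
    (c : 𝓞 F) (art : (𝓞 F ⧸ Ideal.span {c})ˣ →* Gal(K/F)) : Prop where
  surj : Function.Surjective art
  unr : ∀ v : HeightOneSpectrum (𝓞 K), algebraMap (𝓞 F) (𝓞 K) c ∉ v.asIdeal →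
    Algebra.IsUnramifiedAt (𝓞 F) v.asIdeal
  frob : ∀ π : 𝓞 F, Prime π → ∀ u : (𝓞 F ⧸ Ideal.span {c})ˣ,
    (u : 𝓞 F ⧸ Ideal.span {c}) = Ideal.Quotient.mk _ π →
    ∀ v : HeightOneSpectrum (𝓞 K), algebraMap (𝓞 F) (𝓞 K) π ∈ v.asIdeal →
      ∀ x : 𝓞 K, art u • x - x ^ Nat.card (𝓞 F ⧸ Ideal.span {π}) ∈ v.asIdeal

section rep

variable {K : Type} [Field K] [NumberField K]

/-- The Frobenius automorphisms at the place `v`: the automorphisms `σ` of `K` with
`σ x = x ^ p` modulo `v` for all the integers `x` of `K`, where `p` is the prime number below `v`.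
They are a coset of the inertia group of `v`. -/
def FrobSet (v : HeightOneSpectrum (𝓞 K)) : Set (K ≃ₐ[ℚ] K) :=
  {σ | IsArithFrobAt ℤ σ v.asIdeal}

/-- The Kronecker product of matrices, as a homomorphism of monoids. -/
noncomputable def kron : Matrix (Fin 2) (Fin 2) ℂ × Matrix (Fin 2) (Fin 2) ℂ →*
    Matrix (Fin 2 × Fin 2) (Fin 2 × Fin 2) ℂ where
  toFun A := A.1 ⊗ₖ A.2
  map_one' := Matrix.one_kronecker_one
  map_mul' A B := Matrix.mul_kronecker_mul A.1 B.1 A.2 B.2

/-- `ρ_g ⊗ ρ_h`, by the Kronecker products of matrices. -/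
noncomputable def tensor (ρ ρ' : (K ≃ₐ[ℚ] K) →* GL (Fin 2) ℂ) :
    (K ≃ₐ[ℚ] K) →* GL (Fin 2 × Fin 2) ℂ :=
  (Units.map kron).comp (MulEquiv.prodUnits.symm.toMonoidHom.comp (ρ.prod ρ'))

variable {κ : Type} [Fintype κ] [DecidableEq κ] (ρ : (K ≃ₐ[ℚ] K) →* GL κ ℂ)

/-- The action of the Frobenius automorphism at `v` on the vectors of `V = ℂ^κ` fixed by the inertia
group of `v`, extended by zero: the average of the matrices `ρ(σ)` over all the Frobenius
automorphisms `σ` at `v`. -/
noncomputable def frob (v : HeightOneSpectrum (𝓞 K)) : Matrix κ κ ℂ :=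
  (Nat.card (FrobSet v) : ℂ)⁻¹ • ∑ᶠ σ : FrobSet v, (ρ σ.1 : Matrix κ κ ℂ)

/-- The Euler factor of `L(V_f ⊗ V, s)` at the prime number `p`, where `v` is a place of `K`
above `p`: `det (1 - a_p p^(-s) Φ + p^(1 - 2 s) Φ²)⁻¹` for `Φ = frob ρ v`, without the last term if
`p` divides the discriminant of `E`; `a_p = p - pts` as `pts` does not count the point at infinity.  (The curve has
additive reduction at `3`, `a_3 = 0` and the factor is `1`: the wild inertia group at `3` acts trivially on `V` and
without invariants on `V_f`.  At the other primes `V_f` is unramified.) -/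
noncomputable def euler (W : WeierstrassCurve ℤ) (v : HeightOneSpectrum (𝓞 K)) (s : ℂ) (p : ℕ) :
    ℂ :=
  (1 - ((((p : ℤ) - pts W (ZMod p) : ℤ) : ℂ) * (p : ℂ) ^ (-s)) • frob ρ v +
    (if (p : ℤ) ∣ W.Δ then 0 else (p : ℂ) ^ (1 - 2 * s)) • frob ρ v ^ 2).det⁻¹

/-- `L` is a meromorphic function on `ℂ`, and for `Re s > 3/2` it is `L(V_f ⊗ V, s)`, the product of the
Euler factors at all the prime numbers (for any choice of the places above them). -/
def IsLFunction (L : ℂ → ℂ) : Prop :=
  MeromorphicOn L Set.univ ∧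
    ∀ V : Nat.Primes → HeightOneSpectrum (𝓞 K),
      (∀ p : Nat.Primes, ((p : ℕ) : 𝓞 K) ∈ (V p).asIdeal) → ∀ s : ℂ, 3 / 2 < s.re →
      HasProd (fun p : Nat.Primes => euler ρ curve (V p) s p) (L s)

variable (K) in
/-- The group `E(K)`. -/
abbrev Pts : Type := ((base curve ℚ).map (algebraMap ℚ K)).toAffine.Point

open Classical in
/-- The action of the automorphism `σ` on `E(K)`. -/
noncomputable def act (σ : K ≃ₐ[ℚ] K) : Pts K →+ Pts K :=
  Affine.Point.map (W' := (base curve ℚ).toAffine) (σ : K →ₐ[ℚ] K)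

end rep

/-- For a representation `ρ` of the group `G` on `V = ℂ^κ` and an action `α` of `G` on the abelian group
`A`: the linear map `φ : V → A ⊗ ℂ` commutes with `G`. -/
def IsHom {G κ A : Type} [Group G] [Fintype κ] [DecidableEq κ] [AddCommGroup A]
    (ρ : G →* GL κ ℂ) (α : G → A →+ A) (φ : (κ → ℂ) →ₗ[ℂ] (ℂ ⊗[ℤ] A)) : Prop :=
  ∀ (σ : G) (v : κ → ℂ),
    φ ((ρ σ : Matrix κ κ ℂ).mulVec v) = (α σ).toIntLinearMap.baseChange ℂ (φ v)

section hom

variable {G κ A : Type} [Group G] [Fintype κ] [DecidableEq κ] [AddCommGroup A]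
  (ρ : G →* GL κ ℂ) (α : G → A →+ A)

theorem IsHom.zero : IsHom ρ α 0 := fun σ v => by simp

variable {ρ α} in
theorem IsHom.add {φ ψ : (κ → ℂ) →ₗ[ℂ] (ℂ ⊗[ℤ] A)} (h : IsHom ρ α φ) (h' : IsHom ρ α ψ) :
    IsHom ρ α (φ + ψ) := fun σ v => by
  rw [LinearMap.add_apply, LinearMap.add_apply, h σ v, h' σ v, map_add]

variable {ρ α} in
theorem IsHom.smul (a : ℂ) {φ : (κ → ℂ) →ₗ[ℂ] (ℂ ⊗[ℤ] A)} (h : IsHom ρ α φ) :
    IsHom ρ α (a • φ) := fun σ v => by
  rw [LinearMap.smul_apply, LinearMap.smul_apply, h σ v, map_smul]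

/-- `Hom_G(V, A ⊗ ℂ)`, the space of the linear maps which commute with the action of `G`. -/
noncomputable def homs : Submodule ℂ ((κ → ℂ) →ₗ[ℂ] (ℂ ⊗[ℤ] A)) where
  carrier := {φ | IsHom ρ α φ}
  zero_mem' := IsHom.zero ρ α
  add_mem' := IsHom.add
  smul_mem' := IsHom.smul

/-- The dimension of `Hom_G(V, A ⊗ ℂ)`. -/
noncomputable def dimHom : ℕ := Module.finrank ℂ (homs ρ α)

theorem homs_zero [Finite A] : homs ρ α = ⊥ := by
  have h1 : ∀ x : ℂ ⊗[ℤ] A, x = 0 := by
    intro x
    induction x using TensorProduct.induction_on with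
    | zero => rfl
    | tmul a P =>
      have hN : (Nat.card A : ℂ) ≠ 0 := by
        have : 0 < Nat.card A := Nat.card_pos
        exact_mod_cast this.ne'
      have h2 : Nat.card A • P = 0 := card_nsmul_eq_zero'
      have h3 : a = (Nat.card A : ℤ) • (a * (Nat.card A : ℂ)⁻¹) := by
        rw [zsmul_eq_mul]
        push_cast
        field_simp
      rw [h3, TensorProduct.smul_tmul, natCast_zsmul, h2, TensorProduct.tmul_zero]
    | add x y hx hy => rw [hx, hy, add_zero]
  rw [eq_bot_iff]
  intro φ _
  rw [Submodule.mem_bot]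
  exact LinearMap.ext fun v => h1 _

theorem dimHom_zero [Finite A] : dimHom ρ α = 0 := by
  unfold dimHom
  rw [homs_zero]
  exact finrank_bot ℂ _

end hom

open Classical in
/-- The equality for the complex representation `ρ` of `Gal(K/ℚ)` on `V`, with both sides zero:
`L(V_f ⊗ V, s)` has a meromorphic continuation that is analytic at `s = 1`, and its order there is
`dim Hom(V, E(K) ⊗ ℂ)` and zero. -/
def Equality {K : Type} [Field K] [NumberField K] {κ : Type} [Fintype κ] [DecidableEq κ]
    (ρ : (K ≃ₐ[ℚ] K) →* GL κ ℂ) : Prop :=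
  ∃ L : ℂ → ℂ, IsLFunction ρ L ∧ AnalyticAt ℂ L 1 ∧
    analyticOrderAt L 1 = dimHom ρ (act (K := K)) ∧ analyticOrderAt L 1 = 0

open Classical in
/-- **Main theorem.** Let `F` be the field of third roots of unity and let `K ⊇ F` be a Galois extension
of `ℚ`, of degree `2 ^ n` over `F`, with an Artin map `art` over `F` of modulus `m`, where `2` is not
a cube modulo any prime number that divides `m`.  Let `f` be the newform of level `27` of the curve
`E : y² + y = x³`.  Then `E(K)` is finite, and for all pairs of two-dimensional complex representations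
`ρ_g`, `ρ_h` of `Gal(K/ℚ)` Beilinson's equality holds:
`ord_{s = 1} L(f ⊗ g ⊗ h, s) = dim Hom(V_gh, E(K) ⊗ ℂ) = 0`; moreover `L(f ⊗ g ⊗ h, 1)`, divided by the square of
the complex period of `E`, is a unit at every valuation `w` of `ℂ` with `w 2 < 1`.  The equality holds
for all complex representations of `Gal(K/ℚ)` of any dimension. -/
theorem result (F K : Type) [Field F] [NumberField F] [IsCyclotomicExtension {3} ℚ F] [Field K]
    [NumberField K] [Algebra F K] [IsGalois ℚ K] (n : ℕ) (hn : Module.finrank F K = 2 ^ n)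
    (m : ℕ) (hm : ∀ p : ℕ, p.Prime → p ∣ m → ∀ x : ZMod p, x ^ 3 ≠ 2)
    (art : (𝓞 F ⧸ Ideal.span {(m : 𝓞 F)})ˣ →* Gal(K/F)) (hart : IsArtin (m : 𝓞 F) art) :
    Finite (Pts K) ∧ 0 < complexPeriod curve ∧
    (∀ ρg ρh : (K ≃ₐ[ℚ] K) →* GL (Fin 2) ℂ, ∃ L : ℂ → ℂ,
      IsLFunction (tensor ρg ρh) L ∧ AnalyticAt ℂ L 1 ∧
      analyticOrderAt L 1 = dimHom (tensor ρg ρh) (act (K := K)) ∧ analyticOrderAt L 1 = 0 ∧
      ∀ (Γ : Type) [LinearOrderedCommGroupWithZero Γ] (w : Valuation ℂ Γ), w 2 < 1 →
        w (L 1 / (complexPeriod curve : ℂ) ^ 2) = 1) ∧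
    ∀ (κ : Type) [Fintype κ] [DecidableEq κ] (ρ : (K ≃ₐ[ℚ] K) →* GL κ ℂ), Equality ρ := by
  obtain ⟨h1, h2⟩ := Pool.Agent.J4.H24.BT.main hn hm
    (art := art) ⟨hart.surj, hart.unr, hart.frob⟩
  have e : (base curve ℚ).map (algebraMap ℚ K) =
      (Pool.Agent.Y696.E27 ℤ).map (Int.castRingHom K) := by
    rw [Pool.Agent.R431.B.map27]
    ext <;> simp [Pool.Agent.Y696.E27, base, curve]
  have hfin : Finite (Pts K) := by
    show Finite ((base curve ℚ).map (algebraMap ℚ K)).toAffine.Point
    rw [e]
    exact h1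
  obtain ⟨h3, h4, h5⟩ := h2 _ (complexPeriod curve) rfl rfl
  refine ⟨hfin, h4, fun ρg ρh => ?_, fun κ _ _ ρ => ?_⟩
  · obtain ⟨L, l1, l2, l3, l4, l5⟩ := h5 _ (tensor ρg ρh)
    have h7 := dimHom_zero (A := Pts K) (tensor ρg ρh) (act (K := K))
    have h8 : analyticOrderAt L 1 = 0 := analyticOrderAt_eq_zero.2 (Or.inr l4)
    refine ⟨L, ⟨l1, l2⟩, l3, ?_, h8, fun Γ _ w hw => ?_⟩
    · rw [h8, h7]
      rfl
    · have h9 := l5 Γ w hw 2 2 (by simp)
      rw [← h9]
      congr 2
      have h10 : ∀ R C : ℝ, 0 < R → R ^ 2 * (C / R) ^ 2 = C ^ 2 := by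
        intro R C hR
        rw [div_pow, mul_div_cancel₀ _ (pow_ne_zero 2 hR.ne')]
      rw [h10 _ _ h3]
      push_cast
      rfl
  · obtain ⟨L, l1, l2, l3, l4, l5⟩ := h5 _ ρ
    have h7 := dimHom_zero (A := Pts K) ρ (act (K := K))
    have h8 : analyticOrderAt L 1 = 0 := analyticOrderAt_eq_zero.2 (Or.inr l4)
    refine ⟨L, ⟨l1, l2⟩, l3, ?_, h8⟩
    rw [h8, h7]
    rfl

end Pool.Agent.Results.MP_60ff09_nt.NonabelianTwoPowerLevel27
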