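import Pool.Agent.J4.H54.QT.Fin

/-!
# Beilinson's conjecture for the form of level 27 and weight one forms of towers over quartic fields

`E` is the curve `y² + y = x³` over `ℚ`, of conductor `27`, and `f` its newform, so that the part of
`CH¹(X_1(27)/H)_0 ⊗ ℂ` attached to `f` is `E(H) ⊗ ℂ`.  Call a prime of a number field good when `2` is not a cube modulo
it; the good prime numbers are `7, 13, 19, 37, ...`.  Let `F = ℚ(√-3)`, let `N/F` be any quadratic extension in which only
good primes ramify (no condition on the class number), and let `K/N` be a Galois extension of exponent two in which only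
good primes ramify, or an abelian extension of degree `2 ^ n` with an Artin map whose modulus has only good prime
divisors (by class field theory: only good primes ramify), such that `K` is Galois over `ℚ`.  Then `Gal(K/F)` is not
abelian in general, and its order and exponent are not bounded.

Theorem, with no hypothesis: for ALL pairs `(g, h)` of weight one forms whose Artin representations are trivial on
the Galois group of `K` and such that the restriction of `ρ_g` or of `ρ_h` to `Gal(K/F)` is irreducible, Beilinson's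
equality holds, with both sides zero, for the triple product of `f`, `g`, `h`:

`ord_{s = 1} L(f ⊗ g ⊗ h, s) = dim Hom(V_gh, E(K) ⊗ ℂ) = 0`.

(The homomorphisms are those of representations of `Gal(K/ℚ)`; they are the same for `K` and for the field `H` of
`ρ_g ⊗ ρ_h`.)  So `g` is any cusp form split by `K` that is not a theta series of `F`, and `h` is any form split by `K`.
For example `N = F M` with a quadratic field `M = ℚ(√d)` or `ℚ(√(-3d))`, REAL or imaginary, where `d = 1` modulo `4` is
up to the sign a product of good prime numbers, `g` is the theta series of a character of `M` of 2-power order and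
good conductor, and `h` is a theta series of `M`, or of `F`, or of `ℚ(√(-3d))`, or an Eisenstein series; `V_gh` may be
irreducible of dimension four, and the dual pairs `(g, g*)` are included.  Since `(f ⊗ χ) ⊗ g ⊗ h = f ⊗ (g ⊗ χ) ⊗ h`, the
twists `f ⊗ χ` by the characters `χ` of `Gal(K/ℚ)` are included.  Moreover `L(f ⊗ g ⊗ h, 1) / (Ω⁺ |Ω⁻|)²` is a unit at
every valuation of the field of complex numbers above `2`, where `Ω⁺ |Ω⁻| = 2 ∫_{E(ℂ)} |ω ∧ ω̄|`.

More generally the equality holds for all complex representations `V` of `Gal(K/ℚ)`, of any dimension, whose trace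
vanishes on `Gal(K/F)` outside of `Gal(K/N)`; that is, whose restriction to `Gal(K/F)` is induced from `Gal(K/N)`.

The result `NonabelianTwoPowerLevel27` of this problem treats the fields `K` that are abelian over `F`; there `ρ_g`
and `ρ_h` are reducible over `F`, that is `g` and `h` are theta series of `F` or Eisenstein series.  The two families of
pairs are disjoint.  The starting result `DihedralTwoPower` assumes that a central value is odd, and that the bad
primes of `E` are unramified in the quadratic field; here the bad prime `3` is ramified in `F` and nothing is assumed.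

The proof.  `V_f` is induced from the Hecke character `ψ` of `F`, and `V` restricted to `F` is the sum of representations
induced from characters `c_i` of `Gal(K/N)`; so `L(V_f ⊗ V, s)` is the product of the Hecke `L`-functions
`L(ψ_N c_i, s)` of the quartic field `N` and of factors at the primes that ramify.  The existence of the `c_i` and the
comparison of the Euler factors (by Frobenius elements inside and outside of `Gal(K/N)`) are in `Pool/Agent/J4/H54/QT`.
The functions `L(ψ_N c, s)` are entire and `L(ψ_N c, 1)` is a 2-adic unit times the square of a period, by the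
starting files `Pool/Agent/R430`, which also give the finiteness of `E(K)`.
-/

set_option autoImplicit false

namespace Pool.Agent.Results.MP_60ff09_nt.QuarticTowersLevel27

open NumberField IsDedekindDomain WeierstrassCurve MeasureTheory

open scoped TensorProduct Kronecker

/-- The curve `E : y² + y = x³`. -/
def curve : WeierstrassCurve ℤ := ⟨0, 0, 1, 0, 0⟩

/-- The curve given by the equation of `W` over the ring `R`. -/
abbrev base (W : WeierstrassCurve ℤ) (R : Type) [CommRing R] : WeierstrassCurve R :=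
  W.map (Int.castRingHom R)

/-- The number of the affine points `(x, y)` over the ring `R`. -/
noncomputable def pts (W : WeierstrassCurve ℤ) (R : Type) [CommRing R] : ℕ :=
  Nat.card {P : R × R // (base W R).toAffine.Equation P.1 P.2}

/-- `4 x³ + b₂ x² + 2 b₄ x + b₆ = (2 y + a₁ x + a₃)²`, where `b₂ = a₁² + 4 a₂`,
`b₄ = 2 a₄ + a₁ a₃`, `b₆ = a₃² + 4 a₆`. -/
def cubic (W : WeierstrassCurve ℤ) {R : Type} [CommRing R] (x : R) : R :=
  4 * x ^ 3 + W.b₂ * x ^ 2 + 2 * W.b₄ * x + W.b₆

/-- `2 ∫_{W(ℂ)} |ω ∧ ω̄|` with `ω = dx / (2 y + a₁ x + a₃)`, where `|ω ∧ ω̄| = du dv` in a local parameter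
`z = u + i v` with `dz = ω`, as an integral over `x`: two points lie over a general `x`, and `|ω ∧ ω̄|` is the
area element of the plane of `x` divided by `|cubic x|`. -/
noncomputable def complexPeriod (W : WeierstrassCurve ℤ) : ℝ := 2 * (2 * ∫ x : ℂ, 1 / ‖cubic W x‖)

/-- Only primes modulo which `2` is not a cube ramify in `K/F`: if `σ ≠ 1` lies in the inertia group of
the prime `w` of `K`, then `2` is not a cube modulo the prime of `F` below `w`. -/
def GoodRam (F K : Type) [Field F] [NumberField F] [Field K] [NumberField K] [Algebra F K] : Prop :=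
  ∀ (w : HeightOneSpectrum (𝓞 K)) (σ : Gal(K/F)), (∀ x : 𝓞 K, σ • x - x ∈ w.asIdeal) → σ ≠ 1 →
    ∀ α : 𝓞 F, α ^ 3 - 2 ∉ w.asIdeal.under (𝓞 F)

/-- `Φ` is an Artin map modulo the ideal `𝔪` of the Galois extension `K/F` (`F` has no real place): on
the non-zero ideals prime to `𝔪` it is multiplicative, it is trivial on the ideals `(α)` with
`α - 1 ∈ 𝔪`, `α ≠ 0`, the inertia groups of the primes of `K` not above a prime divisor of `𝔪` are
trivial, and `Φ(𝔭)` acts as a Frobenius automorphism at the primes of `K` above `𝔭`, `𝔭 ∤ 𝔪`. -/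
structure ArtinMap {F K : Type} [Field F] [NumberField F] [Field K] [NumberField K] [Algebra F K]
    (𝔪 : Ideal (𝓞 F)) (Φ : Ideal (𝓞 F) → Gal(K/F)) : Prop where
  mul : ∀ I J : Ideal (𝓞 F), I ≠ ⊥ → J ≠ ⊥ → IsCoprime I 𝔪 → IsCoprime J 𝔪 → Φ (I * J) = Φ I * Φ J
  ray : ∀ α : 𝓞 F, α ≠ 0 → α - 1 ∈ 𝔪 → Φ (Ideal.span {α}) = 1
  unram : ∀ w : HeightOneSpectrum (𝓞 K), ¬ 𝔪 ≤ w.asIdeal.under (𝓞 F) →
    ∀ σ : Gal(K/F), (∀ x : 𝓞 K, σ • x - x ∈ w.asIdeal) → σ = 1
  frob : ∀ w : HeightOneSpectrum (𝓞 K), ¬ 𝔪 ≤ w.asIdeal.under (𝓞 F) → ∀ x : 𝓞 K,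
    Φ (w.asIdeal.under (𝓞 F)) • x - x ^ Nat.card (𝓞 F ⧸ w.asIdeal.under (𝓞 F)) ∈ w.asIdeal

/-- The hypothesis on `K/N`: its Galois group has exponent `2` and only good primes ramify, or it is
abelian of degree `2 ^ n` and has an Artin map modulo an ideal `𝔪 ≠ 0` with only good prime divisors. -/
def Admissible (N K : Type) [Field N] [NumberField N] [Field K] [NumberField K] [Algebra N K] : Prop :=
  (GoodRam N K ∧ ∀ σ : Gal(K/N), σ * σ = 1) ∨
    ((∃ n : ℕ, Module.finrank N K = 2 ^ n) ∧ (∀ σ τ : Gal(K/N), σ * τ = τ * σ) ∧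
      ∃ 𝔪 : Ideal (𝓞 N), 𝔪 ≠ ⊥ ∧
        (∀ v : HeightOneSpectrum (𝓞 N), 𝔪 ≤ v.asIdeal → ∀ α : 𝓞 N, α ^ 3 - 2 ∉ v.asIdeal) ∧
        ∃ Φ : Ideal (𝓞 N) → Gal(K/N), ArtinMap 𝔪 Φ)

section rep

variable {K : Type} [Field K] [NumberField K]

/-- The Frobenius automorphisms at the place `v`: the automorphisms `σ` of `K` with
`σ x = x ^ p` modulo `v` for all the integers `x` of `K`, where `p` is the prime number below `v`.
They are a coset of the inertia group of `v`. -/
def FrobSet (v : HeightOneSpectrum (𝓞 K)) : Set (K ≃ₐ[ℚ] K) :=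
  {σ | IsArithFrobAt ℤ σ v.asIdeal}

/-- The Kronecker product of matrices, as a homomorphism of monoids. -/
noncomputable def kron : Matrix (Fin 2) (Fin 2) ℂ × Matrix (Fin 2) (Fin 2) ℂ →*
    Matrix (Fin 2 × Fin 2) (Fin 2 × Fin 2) ℂ where
  toFun A := A.1 ⊗ₖ A.2
  map_one' := Matrix.one_kronecker_one
  map_mul' A B := Matrix.mul_kronecker_mul A.1 B.1 A.2 B.2

/-- `ρ_g ⊗ ρ_h`, by the Kronecker products of matrices. -/
noncomputable def tensor (ρ ρ' : (K ≃ₐ[ℚ] K) →* GL (Fin 2) ℂ) :
    (K ≃ₐ[ℚ] K) →* GL (Fin 2 × Fin 2) ℂ :=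
  (Units.map kron).comp (MulEquiv.prodUnits.symm.toMonoidHom.comp (ρ.prod ρ'))

variable {κ : Type} [Fintype κ] [DecidableEq κ] (ρ : (K ≃ₐ[ℚ] K) →* GL κ ℂ)

/-- The action of the Frobenius automorphism at `v` on the vectors of `V = ℂ^κ` fixed by the inertia
group of `v`, extended by zero: the average of the matrices `ρ(σ)` over all the Frobenius
automorphisms `σ` at `v`. -/
noncomputable def frob (v : HeightOneSpectrum (𝓞 K)) : Matrix κ κ ℂ :=
  (Nat.card (FrobSet v) : ℂ)⁻¹ • ∑ᶠ σ : FrobSet v, (ρ σ.1 : Matrix κ κ ℂ)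

/-- The Euler factor of `L(V_f ⊗ V, s)` at the prime number `p`, where `v` is a place of `K`
above `p`: `det (1 - a_p p^(-s) Φ + p^(1 - 2 s) Φ²)⁻¹` for `Φ = frob ρ v`, without the last term if
`p` divides the discriminant of `E`; `a_p = p - pts` as `pts` does not count the point at infinity.  (The curve has
additive reduction at `3`, `a_3 = 0` and the factor is `1`: the wild inertia group at `3` acts trivially on `V` and
without invariants on `V_f`.  At the other primes `V_f` is unramified.) -/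
noncomputable def euler (W : WeierstrassCurve ℤ) (v : HeightOneSpectrum (𝓞 K)) (s : ℂ) (p : ℕ) :
    ℂ :=
  (1 - ((((p : ℤ) - pts W (ZMod p) : ℤ) : ℂ) * (p : ℂ) ^ (-s)) • frob ρ v +
    (if (p : ℤ) ∣ W.Δ then 0 else (p : ℂ) ^ (1 - 2 * s)) • frob ρ v ^ 2).det⁻¹

/-- `L` is a meromorphic function on `ℂ`, and for `Re s > 3/2` it is `L(V_f ⊗ V, s)`, the product of the
Euler factors at all the prime numbers (for any choice of the places above them). -/
def IsLFunction (L : ℂ → ℂ) : Prop :=
  MeromorphicOn L Set.univ ∧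
    ∀ V : Nat.Primes → HeightOneSpectrum (𝓞 K),
      (∀ p : Nat.Primes, ((p : ℕ) : 𝓞 K) ∈ (V p).asIdeal) → ∀ s : ℂ, 3 / 2 < s.re →
      HasProd (fun p : Nat.Primes => euler ρ curve (V p) s p) (L s)

variable (K) in
/-- The group `E(K)`. -/
abbrev Pts : Type := ((base curve ℚ).map (algebraMap ℚ K)).toAffine.Point

open Classical in
/-- The action of the automorphism `σ` on `E(K)`. -/
noncomputable def act (σ : K ≃ₐ[ℚ] K) : Pts K →+ Pts K :=
  Affine.Point.map (W' := (base curve ℚ).toAffine) (σ : K →ₐ[ℚ] K)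

end rep

/-- For a representation `ρ` of the group `G` on `V = ℂ^κ` and an action `α` of `G` on the abelian group
`A`: the linear map `φ : V → A ⊗ ℂ` commutes with `G`. -/
def IsHom {G κ A : Type} [Group G] [Fintype κ] [DecidableEq κ] [AddCommGroup A]
    (ρ : G →* GL κ ℂ) (α : G → A →+ A) (φ : (κ → ℂ) →ₗ[ℂ] (ℂ ⊗[ℤ] A)) : Prop :=
  ∀ (σ : G) (v : κ → ℂ),
    φ ((ρ σ : Matrix κ κ ℂ).mulVec v) = (α σ).toIntLinearMap.baseChange ℂ (φ v)

section hom

variable {G κ A : Type} [Group G] [Fintype κ] [DecidableEq κ] [AddCommGroup A]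
  (ρ : G →* GL κ ℂ) (α : G → A →+ A)

theorem IsHom.zero : IsHom ρ α 0 := fun σ v => by simp

variable {ρ α} in
theorem IsHom.add {φ ψ : (κ → ℂ) →ₗ[ℂ] (ℂ ⊗[ℤ] A)} (h : IsHom ρ α φ) (h' : IsHom ρ α ψ) :
    IsHom ρ α (φ + ψ) := fun σ v => by
  rw [LinearMap.add_apply, LinearMap.add_apply, h σ v, h' σ v, map_add]

variable {ρ α} in
theorem IsHom.smul (a : ℂ) {φ : (κ → ℂ) →ₗ[ℂ] (ℂ ⊗[ℤ] A)} (h : IsHom ρ α φ) :
    IsHom ρ α (a • φ) := fun σ v => by
  rw [LinearMap.smul_apply, LinearMap.smul_apply, h σ v, map_smul]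

/-- `Hom_G(V, A ⊗ ℂ)`, the space of the linear maps which commute with the action of `G`. -/
noncomputable def homs : Submodule ℂ ((κ → ℂ) →ₗ[ℂ] (ℂ ⊗[ℤ] A)) where
  carrier := {φ | IsHom ρ α φ}
  zero_mem' := IsHom.zero ρ α
  add_mem' := IsHom.add
  smul_mem' := IsHom.smul

/-- The dimension of `Hom_G(V, A ⊗ ℂ)`. -/
noncomputable def dimHom : ℕ := Module.finrank ℂ (homs ρ α)

theorem homs_zero [Finite A] : homs ρ α = ⊥ := by
  have h1 : ∀ x : ℂ ⊗[ℤ] A, x = 0 := by
    intro x
    induction x using TensorProduct.induction_on with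
    | zero => rfl
    | tmul a P =>
      have hN : (Nat.card A : ℂ) ≠ 0 := by
        have : 0 < Nat.card A := Nat.card_pos
        exact_mod_cast this.ne'
      have h2 : Nat.card A • P = 0 := card_nsmul_eq_zero'
      have h3 : a = (Nat.card A : ℤ) • (a * (Nat.card A : ℂ)⁻¹) := by
        rw [zsmul_eq_mul]
        push_cast
        field_simp
      rw [h3, TensorProduct.smul_tmul, natCast_zsmul, h2, TensorProduct.tmul_zero]
    | add x y hx hy => rw [hx, hy, add_zero]
  rw [eq_bot_iff]
  intro φ _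
  rw [Submodule.mem_bot]
  exact LinearMap.ext fun v => h1 _

theorem dimHom_zero [Finite A] : dimHom ρ α = 0 := by
  unfold dimHom
  rw [homs_zero]
  exact finrank_bot ℂ _

end hom

/-- The automorphism `σ` of `K` is the identity on `F`. -/
def Fixes (F : Type) {K : Type} [Field F] [NumberField F] [Field K] [NumberField K] [Algebra F K]
    (σ : K ≃ₐ[ℚ] K) : Prop :=
  ∀ x : F, σ (algebraMap F K x) = algebraMap F K x

/-- The restriction of the two-dimensional representation `ρ` to `Gal(K/F)` is irreducible: no line of `ℂ²` is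
stable under the automorphisms that are the identity on `F`. -/
def IrreducibleOver (F : Type) {K : Type} [Field F] [NumberField F] [Field K] [NumberField K]
    [Algebra F K] (ρ : (K ≃ₐ[ℚ] K) →* GL (Fin 2) ℂ) : Prop :=
  ∀ v : Fin 2 → ℂ, v ≠ 0 → ∃ σ : K ≃ₐ[ℚ] K, Fixes F σ ∧
    ∀ c : ℂ, (ρ σ : Matrix (Fin 2) (Fin 2) ℂ).mulVec v ≠ c • v

/-- The trace of `ρ` vanishes on `Gal(K/F)` outside of `Gal(K/N)`; this means that the restriction of `ρ` to
`Gal(K/F)` is induced from `Gal(K/N)` (when `N/F` is quadratic and `Gal(K/N)` is abelian). -/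
def InducedTrace (F N : Type) {K κ : Type} [Field F] [NumberField F] [Field N] [NumberField N]
    [Field K] [NumberField K] [Algebra F K] [Algebra N K] [Fintype κ] [DecidableEq κ]
    (ρ : (K ≃ₐ[ℚ] K) →* GL κ ℂ) : Prop :=
  ∀ σ : K ≃ₐ[ℚ] K, Fixes F σ → ¬ Fixes N σ → (ρ σ : Matrix κ κ ℂ).trace = 0

open Classical in
/-- The equality for the complex representation `ρ` of `Gal(K/ℚ)` on `V`, of dimension `2 e`, with both sides zero:
`L(V_f ⊗ V, s)` has a meromorphic continuation that is analytic at `s = 1`, and its order there is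
`dim Hom(V, E(K) ⊗ ℂ)` and zero; moreover the value at `1`, divided by the `e`-th power of the complex period of `E`,
is a unit at every valuation `w` of `ℂ` with `w 2 < 1`. -/
def Equality {K : Type} [Field K] [NumberField K] {κ : Type} [Fintype κ] [DecidableEq κ]
    (ρ : (K ≃ₐ[ℚ] K) →* GL κ ℂ) : Prop :=
  ∃ L : ℂ → ℂ, IsLFunction ρ L ∧ AnalyticAt ℂ L 1 ∧
    analyticOrderAt L 1 = dimHom ρ (act (K := K)) ∧ analyticOrderAt L 1 = 0 ∧
    ∃ e : ℕ, Fintype.card κ = 2 * e ∧
      ∀ (Γ : Type) [LinearOrderedCommGroupWithZero Γ] (w : Valuation ℂ Γ), w 2 < 1 →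
        w (L 1 / (complexPeriod curve : ℂ) ^ e) = 1

open Classical in
/-- **Main theorem.** Let `F` be the field of third roots of unity, `N/F` a quadratic extension in which only good
primes ramify, `K/N` an admissible extension, `K` Galois over `ℚ`.  Let `f` be the newform of level `27` of the curve
`E : y² + y = x³`.  Then `E(K)` is finite, and Beilinson's equality
`ord_{s = 1} L(f ⊗ g ⊗ h, s) = dim Hom(V_gh, E(K) ⊗ ℂ) = 0` holds for all pairs of two-dimensional complex
representations `ρ_g`, `ρ_h` of `Gal(K/ℚ)` such that `ρ_g` or `ρ_h` is irreducible over `F`; it holds for all complex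
representations of `Gal(K/ℚ)` whose restriction to `Gal(K/F)` is induced from `Gal(K/N)`. -/
theorem result (F N K : Type) [Field F] [NumberField F] [IsCyclotomicExtension {3} ℚ F] [Field N]
    [NumberField N] [Algebra F N] [Field K] [NumberField K] [Algebra N K] [Algebra F K]
    [IsScalarTower F N K] [IsGalois ℚ K] (h2 : Module.finrank F N = 2) (hN : GoodRam F N)
    (hK : Admissible N K) :
    Finite (Pts K) ∧ 0 < complexPeriod curve ∧
    (∀ ρg ρh : (K ≃ₐ[ℚ] K) →* GL (Fin 2) ℂ, IrreducibleOver F ρg ∨ IrreducibleOver F ρh →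
      Equality (tensor ρg ρh)) ∧
    ∀ (κ : Type) [Fintype κ] [DecidableEq κ] (ρ : (K ≃ₐ[ℚ] K) →* GL κ ℂ),
      InducedTrace F N ρ → Equality ρ := by
  have hgalNK : IsGalois N K := IsGalois.tower_top_of_isGalois ℚ N K
  have hyp : Pool.Agent.R430.Hyp N K := by
    rcases hK with ⟨h3, h4⟩ | ⟨hn, hcomm, 𝔪, h𝔪, hgood, Φ, hΦ⟩
    · exact Or.inl ⟨h3, h4⟩
    · exact Or.inr ⟨hn, hcomm, 𝔪, h𝔪, hgood, Φ, hΦ.mul, hΦ.ray, hΦ.unram, hΦ.frob⟩
  obtain ⟨h1, h3⟩ := Pool.Agent.J4.H54.QT.main h2 hN hyp
  have e : (base curve ℚ).map (algebraMap ℚ K) =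
      (Pool.Agent.Y696.E27 ℤ).map (Int.castRingHom K) := by
    rw [Pool.Agent.R431.B.map27]
    ext <;> simp [Pool.Agent.Y696.E27, base, curve]
  have hfin : Finite (Pts K) := by
    show Finite ((base curve ℚ).map (algebraMap ℚ K)).toAffine.Point
    rw [e]
    exact h1
  obtain ⟨h4, h5, h6⟩ := h3 _ (complexPeriod curve) rfl rfl
  have key : ∀ (κ : Type) [Fintype κ] [DecidableEq κ] (ρ : (K ≃ₐ[ℚ] K) →* GL κ ℂ),
      InducedTrace F N ρ → Equality ρ := by
    intro κ _ _ ρ hρ
    obtain ⟨⟨m, hm⟩, L, l1, l2, l3, l4, l5⟩ := h6 κ ρ hρ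
    have h7 := dimHom_zero (A := Pts K) ρ (act (K := K))
    have h8 : analyticOrderAt L 1 = 0 := analyticOrderAt_eq_zero.2 (Or.inr l4)
    refine ⟨L, ⟨l1, l2⟩, l3, ?_, h8, m, by rw [hm]; ring, fun Γ _ w hw => ?_⟩
    · rw [h8, h7]
      rfl
    · rw [← l5 Γ w hw m m hm.symm]
      congr 2
      have h10 : ∀ (R C : ℝ), 0 < R → R ^ m * (C / R) ^ m = C ^ m := by
        intro R C hR
        rw [div_pow, mul_div_cancel₀ _ (pow_ne_zero m hR.ne')]
      rw [h10 _ _ h4]
      push_cast
      rfl
  refine ⟨hfin, h5, fun ρg ρh hirr => key _ _ fun σ hF hNσ => ?_, key⟩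
  have htr : (tensor ρg ρh σ : Matrix (Fin 2 × Fin 2) (Fin 2 × Fin 2) ℂ).trace =
      (ρg σ : Matrix (Fin 2) (Fin 2) ℂ).trace * (ρh σ : Matrix (Fin 2) (Fin 2) ℂ).trace :=
    Matrix.trace_kronecker _ _
  rw [htr]
  rcases hirr with h | h
  · have h7 : (ρg σ : Matrix (Fin 2) (Fin 2) ℂ).trace = 0 :=
      Pool.Agent.J4.H54.QT.irr_tr h2 hyp ρg h σ hF hNσ
    rw [h7, zero_mul]
  · have h7 : (ρh σ : Matrix (Fin 2) (Fin 2) ℂ).trace = 0 :=
      Pool.Agent.J4.H54.QT.irr_tr h2 hyp ρh h σ hF hNσ
    rw [h7, mul_zero]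

end Pool.Agent.Results.MP_60ff09_nt.QuarticTowersLevel27
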