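import Mathlib
import Pool.Agent.J4.H58.TP.Mul

/-!
# Beilinson's conjecture for the triple products of weights `(k, 1, 1)`: only `f`, its totally odd
twists over totally real fields and its everywhere unramified twists over totally complex fields
matter

The other definitions are in `Pool.Agent.J4.H58.TP.Defs` and `Pool.Agent.K4H74.SC.Core`.
-/

set_option autoImplicit false

namespace Pool.Agent.Results.MP_60ff09_nt.UnramifiedTwists

open NumberField Pool.Agent.K4H74 Pool.Agent.K4H74.SK Pool.Agent.K4H77 Pool.Agent.K4H34.AL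
  Pool.Agent.J4.H58.TP Pool.Agent.J4.H58.DEL Pool.Agent.K4H74.ST

/-- The decomposition group of the ideal `P` of the integers of `L`. -/
def decompGroup {E : Ext} (P : Ideal (𝓞 E.L)) : Set (G E) :=
  {g | ∀ x y : 𝓞 E.L, (y : E.L) = emb g x → (y ∈ P ↔ x ∈ P)}

/-- The inertia group of the ideal `P` of the integers of `L`. -/
def inertiaGroup {E : Ext} (P : Ideal (𝓞 E.L)) : Set (G E) :=
  {g | ∀ x y : 𝓞 E.L, (y : E.L) = emb g x → y - x ∈ P}

/-- `L / K` is unramified at all finite primes, and the primes above `q` split completely. -/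
def UnramifiedSplit (q : ℕ) (E : Ext) : Prop :=
  ∀ P : Ideal (𝓞 E.L), P.IsMaximal → (∀ g ∈ inertiaGroup P, g = 1) ∧
    ((q : 𝓞 E.L) ∈ P → ∀ g ∈ decompGroup P, g = 1)

lemma mem_decomp {E : Ext} {P : Ideal (𝓞 E.L)} (g : G E) :
    g ∈ decompGroup P ↔ (show E.L ≃ₐ[E.K] E.L from g) ∈ SL.decomp E.K P := by
  constructor
  · intro h x
    exact h x _ rfl
  · intro h x y hy
    have h1 : y = SL.gi (show E.L ≃ₐ[E.K] E.L from g) x := RingOfIntegers.ext hy
    rw [h1]
    exact h x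

lemma mem_inertia {E : Ext} {P : Ideal (𝓞 E.L)} (g : G E) :
    g ∈ inertiaGroup P ↔ (show E.L ≃ₐ[E.K] E.L from g) ∈ SL.inertia E.K P := by
  constructor
  · intro h x
    exact h x _ rfl
  · intro h x y hy
    have h1 : y = SL.gi (show E.L ≃ₐ[E.K] E.L from g) x := RingOfIntegers.ext hy
    rw [h1]
    exact h x

/-- The linear character `ψ` takes the value `-1` at all complex conjugations. -/
def TotallyOdd {E : Ext} (ψ : G E →* ℂˣ) : Prop := ∀ t : G E, IsCC t → ψ t = -1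

/-- The basic characters: the trivial character of `ℚ`, the totally odd linear characters of the
extensions of the totally real fields, and the faithful linear characters of the (cyclic)
extensions `L / K`, `K` totally complex, which are unramified at all finite primes and in which the
primes above `q` split completely (for `L = K`: the trivial character of `K`). -/
inductive Basic (q : ℕ) : Pair → Prop
  | rational : Basic q ⟨⟨ℚ, ℚ⟩, fun _ => 1⟩
  | odd (E : Ext) (ψ : G E →* ℂˣ) : IsTotallyReal E.K → TotallyOdd ψ → Basic q ⟨E, lin ψ⟩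
  | unramified (E : Ext) (ψ : G E →* ℂˣ) : IsTotallyComplex E.K → UnramifiedSplit q E →
      Function.Injective ψ → Basic q ⟨E, lin ψ⟩

lemma Basic.isChr {q : ℕ} {x : Pair} (h : Basic q x) : IsChr x.2 := by
  cases h with
  | rational =>
    have h1 := isChr_lin (E := ⟨ℚ, ℚ⟩) 1
    have h2 : lin (1 : G ⟨ℚ, ℚ⟩ →* ℂˣ) = fun _ => 1 := by
      funext g
      simp [lin]
    rwa [h2] at h1
  | odd E ψ _ _ => exact isChr_lin ψ
  | unramified E ψ _ _ _ => exact isChr_lin ψ

/-- The character of `V_gh = V_g ⊗ V_h`, for two 2-dimensional representations `ρ_g`, `ρ_h` of the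
Galois group of `L / ℚ`. -/
def tensorChar {L : Type} [Field L] [NumberField L] [IsGalois ℚ L]
    (ρg ρh : G ⟨ℚ, L⟩ →* Matrix (Fin 2) (Fin 2) ℂ) (x : G ⟨ℚ, L⟩) : ℂ :=
  (ρg x).trace * (ρh x).trace

/-- `F` is a meromorphic function on `ℂ` which continues the power `L(f ⊗ χ, s) ^ n`. -/
def IsPower (f : Eigenform) (n : ℕ) {E : Ext} (χ : G E → ℂ) (F : ℂ → ℂ) : Prop :=
  (∀ z, MeromorphicAt F z) ∧ ∀ s : ℂ, (f.k : ℝ) / 2 + 1 < s.re →
    ∃ l : ℂ, HasSum (fTerm f s χ) l ∧ F s = Complex.exp (n * l)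

lemma isPower_one {f : Eigenform} {E : Ext} {χ : G E → ℂ} {F : ℂ → ℂ} :
    IsPower f 1 χ F ↔ IsL f χ F := by
  unfold IsPower IsL
  simp only [Nat.cast_one, one_mul]

/-- the powers -/
theorem power_rel {f : Eigenform} {n : ℕ} {E : Ext} {χ : G E → ℂ} {r : ℕ} {x : Fin r → Pair}
    {k : Fin r → ℤ}
    (hlog : ∀ s : ℂ, (f.k : ℝ) / 2 + 1 < s.re → ∀ (l : ℂ) (l' : Fin r → ℂ),
      HasSum (fTerm f s χ) l → (∀ i, HasSum (fTerm f s (x i).2) (l' i)) → n * l = ∑ i, k i * l' i)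
    {m' : Fin r → ℤ} {F' : Fin r → ℂ → ℂ} (hF : ∀ i, IsL f (x i).2 (F' i)) {z : ℂ}
    (hm : ∀ i, meromorphicOrderAt (F' i) z = m' i) :
    ∃ F, IsPower f n χ F ∧ meromorphicOrderAt F z = ((∑ i, k i * m' i : ℤ) : WithTop ℤ) := by
  refine ⟨Pool.Agent.J4.H58.BSD.prodPow F' k Finset.univ, ⟨fun z => Pool.Agent.J4.H58.BSD.prodPow_mero k _ fun i => (hF i).1 z,
    fun s hs => ?_⟩, Pool.Agent.J4.H58.BSD.prodPow_order _ (fun i => (hF i).1 z) hm⟩
  obtain ⟨l, hl⟩ := fTerm_summable f hs χ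
  refine ⟨l, hl, ?_⟩
  choose l' hl' h2 using fun i => (hF i).2 s hs
  rw [hlog s hs l l' hl hl', Complex.exp_sum, Pool.Agent.J4.H58.BSD.prodPow, Finset.prod_apply]
  refine Finset.prod_congr rfl fun i _ => ?_
  rw [Pi.pow_apply, h2 i, Complex.exp_int_mul]

/-- the order of a function and of its power -/
theorem order_of_power {f : Eigenform} {n : ℕ} {E : Ext} {χ : G E → ℂ} {F F₁ : ℂ → ℂ}
    (hF : IsPower f n χ F) (hF₁ : IsL f χ F₁) (z : ℂ) {a : ℤ}
    (ha : meromorphicOrderAt F₁ z = a) : meromorphicOrderAt F z = ((n * a : ℤ) : WithTop ℤ) := by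
  have h1 : meromorphicOrderAt F z = meromorphicOrderAt (F₁ ^ n) z := by
    refine order_eq ((f.k : ℝ) / 2 + 1) hF.1 (fun w => (hF₁.1 w).pow n) (fun s hs => ?_) z
    obtain ⟨l, hl, h3⟩ := hF.2 s hs
    obtain ⟨l', hl', h4⟩ := hF₁.2 s hs
    rw [Pi.pow_apply, h3, h4, hl.unique hl', ← Complex.exp_nat_mul]
  rw [h1, meromorphicOrderAt_pow (hF₁.1 z), ha]
  push_cast
  rfl

/-- Let `f` be a normalised cuspidal eigenform of weight `k ≥ 2`, let `V` be a functor with Galois
descent from the number fields to the finite-dimensional complex vector spaces (in the conjecture: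
`V(L) = CH^{k/2}(W_{k-2} / L)_0^{[f]} ⊗ ℂ`), and let `q ≥ 1`. For a character `χ` of the Galois group
of an extension `L / K` of number fields the series for `log L(f ⊗ χ, s)` converges for
`Re s > k / 2 + 1`, and there is exactly one multiplicity of `χ` in `V(L)`.

(1) For every family of functors `V_j` there are `n ≥ 1`, basic characters `ψ_i` (for `q`) and
integers `k_i`, the same ones for all `f` and `j`, such that `L(f ⊗ χ, s)^n = ∏ L(f ⊗ ψ_i, s)^(k_i)`
(for the logarithms), the orders at `s = k / 2` of meromorphic continuations satisfy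
`n a = ∑ k_i a_i`, and so do the multiplicities in `V_j`. So the difference of the order and the
multiplicity for `χ` is the combination, with the coefficients `k_i / n`, of those for the `ψ_i`.

(2) There is `n ≥ 1` such that for all `f` with Beilinson's formula (the order of `L(f ⊗ ψ, s)` at
`s = k / 2` is the multiplicity of `ψ` in `V(L)`) true for the basic characters for `q`, the power
`L(f ⊗ χ, s)^n` has a meromorphic continuation with the order `n m` at `s = k / 2`, where `m` is the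
multiplicity of `χ`.

(3) If Beilinson's formula is true for the basic characters for `q`, then it is true for all `χ` such
that `L(f ⊗ χ, s)` has a meromorphic continuation; in particular for the triple products
`f ⊗ g ⊗ h` with 2-dimensional Artin representations `ρ_g`, `ρ_h` of `Gal(L / ℚ)`. -/
theorem result :
    -- the series and the multiplicities
    (∀ (f : Eigenform) (E : Ext) (χ : G E → ℂ) (s : ℂ), (f.k : ℝ) / 2 + 1 < s.re →
      ∃ l : ℂ, HasSum (fTerm f s χ) l) ∧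
    (∀ (V : GalFun) (E : Ext) (χ : G E → ℂ), IsChr χ → ∃! m : ℕ, IsMult V χ m) ∧
    ∀ q : ℕ, q ≠ 0 →
      -- (1)
      (∀ (ι : Type) (V : ι → GalFun) (E : Ext) (χ : G E → ℂ), IsChr χ → ∃ n : ℕ, 0 < n ∧
        ∃ (r : ℕ) (x : Fin r → Pair) (k : Fin r → ℤ), (∀ i, Basic q (x i)) ∧
          (∀ (f : Eigenform) (s : ℂ), (f.k : ℝ) / 2 + 1 < s.re → ∀ (l : ℂ) (l' : Fin r → ℂ),
            HasSum (fTerm f s χ) l → (∀ i, HasSum (fTerm f s (x i).2) (l' i)) →
              n * l = ∑ i, k i * l' i) ∧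
          (∀ (f : Eigenform) (F : ℂ → ℂ) (F' : Fin r → ℂ → ℂ), IsL f χ F →
            (∀ i, IsL f (x i).2 (F' i)) → ∃ (a : ℤ) (a' : Fin r → ℤ),
              meromorphicOrderAt F ((f.k : ℂ) / 2) = a ∧
              (∀ i, meromorphicOrderAt (F' i) ((f.k : ℂ) / 2) = a' i) ∧ n * a = ∑ i, k i * a' i) ∧
          ∀ (j : ι) (m : ℕ) (m' : Fin r → ℕ), IsMult (V j) χ m →
            (∀ i, IsMult (V j) (x i).2 (m' i)) → (n : ℤ) * m = ∑ i, k i * m' i) ∧
      -- (2)
      (∀ (V : GalFun) (E : Ext) (χ : G E → ℂ), IsChr χ → ∃ n : ℕ, 0 < n ∧ ∀ f : Eigenform,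
        (∀ x : Pair, Basic q x → Beilinson f V x.2) → ∃ F : ℂ → ℂ, IsPower f n χ F ∧
          ∀ m : ℕ, IsMult V χ m →
            meromorphicOrderAt F ((f.k : ℂ) / 2) = ((n * m : ℕ) : WithTop ℤ)) ∧
      -- (3)
      ∀ (f : Eigenform) (V : GalFun), (∀ x : Pair, Basic q x → Beilinson f V x.2) →
        (∀ (E : Ext) (χ : G E → ℂ), IsChr χ → (∃ F, IsL f χ F) → Beilinson f V χ) ∧
        ∀ (L : Type) [Field L] [NumberField L] [IsGalois ℚ L]
          (ρg ρh : G ⟨ℚ, L⟩ →* Matrix (Fin 2) (Fin 2) ℂ),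
          (∃ F, IsL f (tensorChar ρg ρh) F) → Beilinson f V (tensorChar ρg ρh) := by
  refine ⟨fun f E χ s hs => fTerm_summable f hs χ, fun V E χ hχ => ?_, fun q hq => ?_⟩
  · obtain ⟨m, hm⟩ := isMult_exists V hχ
    exact ⟨m, hm, fun m' hm' => isMult_unique hm' hm⟩
  have hmain : ∀ (ι : Type) (V : ι → GalFun) (E : Ext) (χ : G E → ℂ), IsChr χ → ∃ n : ℕ, 0 < n ∧
        ∃ (r : ℕ) (x : Fin r → Pair) (k : Fin r → ℤ), (∀ i, Basic q (x i)) ∧
          (∀ (f : Eigenform) (s : ℂ), (f.k : ℝ) / 2 + 1 < s.re → ∀ (l : ℂ) (l' : Fin r → ℂ),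
            HasSum (fTerm f s χ) l → (∀ i, HasSum (fTerm f s (x i).2) (l' i)) →
              n * l = ∑ i, k i * l' i) ∧
          (∀ (f : Eigenform) (F : ℂ → ℂ) (F' : Fin r → ℂ → ℂ), IsL f χ F →
            (∀ i, IsL f (x i).2 (F' i)) → ∃ (a : ℤ) (a' : Fin r → ℤ),
              meromorphicOrderAt F ((f.k : ℂ) / 2) = a ∧
              (∀ i, meromorphicOrderAt (F' i) ((f.k : ℂ) / 2) = a' i) ∧ n * a = ∑ i, k i * a' i) ∧
          ∀ (j : ι) (m : ℕ) (m' : Fin r → ℕ), IsMult (V j) χ m →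
            (∀ i, IsMult (V j) (x i).2 (m' i)) → (n : ℤ) * m = ∑ i, k i * m' i := by
    intro ι V E χ hχ
    obtain ⟨n, hn, r, x, k, hx, h⟩ := power_form3 (tInv V) (Basic q) hq
      Basic.rational
      (fun E hE ψ hψ => Basic.odd E ψ hE hψ)
      (fun E hE hP ψ hψ => Basic.unramified E ψ hE (fun P hPm =>
        ⟨fun g hg => (hP P hPm).1 g ((mem_inertia g).mp hg),
          fun hmP g hg => (hP P hPm).2 hmP g ((mem_decomp g).mp hg)⟩) hψ) hχ
    refine ⟨n, hn, r, x, k, hx, fun f s hs l l' hl hl' => rel_log h f hs hl hl',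
      fun f F F' hF hF' => ?_, fun j m m' hm hm' => rel_mult h j hm hm'⟩
    choose a' ha' using fun i => order_finite (hF' i) ((f.k : ℂ) / 2)
    obtain ⟨a, ha⟩ := order_finite hF ((f.k : ℂ) / 2)
    obtain ⟨F₁, hF₁, hF₁o⟩ := power_rel (fun s hs l l' hl hl' => rel_log h f hs hl hl') hF' ha'
    have h1 := order_of_power hF₁ hF _ ha
    rw [hF₁o] at h1
    exact ⟨a, a', ha, ha', (by exact_mod_cast h1.symm)⟩
  have hpow : ∀ (V : GalFun) (E : Ext) (χ : G E → ℂ), IsChr χ → ∃ n : ℕ, 0 < n ∧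
      ∀ f : Eigenform, (∀ x : Pair, Basic q x → Beilinson f V x.2) → ∃ F : ℂ → ℂ,
        IsPower f n χ F ∧ ∀ m : ℕ, IsMult V χ m →
          meromorphicOrderAt F ((f.k : ℂ) / 2) = ((n * m : ℕ) : WithTop ℤ) := by
    intro V E χ hχ
    obtain ⟨n, hn, r, x, k, hx, hlog, -, hmult⟩ := hmain Unit (fun _ => V) E χ hχ
    refine ⟨n, hn, fun f hb => ?_⟩
    choose F' m' hF' hm' ho using fun i => hb (x i) (hx i)
    obtain ⟨F, hF, hF1⟩ := power_rel (m' := fun i => (m' i : ℤ)) (hlog f) hF' ho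
    refine ⟨F, hF, fun m hm => ?_⟩
    rw [hF1, ← hmult () m m' hm hm']
    push_cast
    rfl
  have hbei : ∀ (f : Eigenform) (V : GalFun), (∀ x : Pair, Basic q x → Beilinson f V x.2) →
      ∀ (E : Ext) (χ : G E → ℂ), IsChr χ → (∃ F, IsL f χ F) → Beilinson f V χ := by
    intro f V hb E χ hχ ⟨F, hF⟩
    obtain ⟨n, hn, h⟩ := hpow V E χ hχ
    obtain ⟨F₁, hF₁, hF₁o⟩ := h f hb
    obtain ⟨m, hm⟩ := isMult_exists V hχ
    obtain ⟨a, ha⟩ := order_finite hF ((f.k : ℂ) / 2)
    have h1 := order_of_power hF₁ hF _ ha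
    rw [hF₁o m hm] at h1
    have h2 : (n : ℤ) * a = n * m := by
      have h3 : ((n * m : ℕ) : ℤ) = (n : ℤ) * a := WithTop.coe_injective h1
      rw [← h3, Nat.cast_mul]
    have hn' : (n : ℤ) ≠ 0 := by exact_mod_cast hn.ne'
    refine ⟨F, m, hF, hm, ?_⟩
    rw [ha, mul_left_cancel₀ hn' h2]
    rfl
  exact ⟨hmain, hpow, fun f V hb => ⟨hbei f V hb, fun L _ _ _ ρg ρh hF =>
    hbei f V hb ⟨ℚ, L⟩ _ (isChr_mul ⟨2, ρg, fun _ => rfl⟩ ⟨2, ρh, fun _ => rfl⟩) hF⟩⟩

end Pool.Agent.Results.MP_60ff09_nt.UnramifiedTwists
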